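import Pool.Agent.W_156d3b_h46.PDefs

/-!
MP_198aa6_nt (Erdos-Graham: minimal spread f(n) of a factorisation of n! into distinct factors), helper46.
THEOREM (A): the number of `n ≤ x` with `f(n) ≤ M` is at most `C 4^M (log x)^3`.
For each shape `S ⊆ {0..M}`, `|S| = t ≥ 2`: `n! = ∏_{j ∈ S} (a + j)`. Same window + Plotkin argument as in
W_156d3b_h46 (`WinP.lean`).
-/

namespace Fac46

open Nat

/-- `n! = ∏_{j ∈ S} (a + j)` -/
def FS (S : Finset ℕ) (n a : ℕ) : Prop := 2 ≤ n ∧ 1 ≤ a ∧ ∏ j ∈ S, (a + j) = n !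

end Fac46
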