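import Mathlib

namespace Fac46

/-- PROOF. For `x ≥ 2 X0 + 2`, with `X = x/2 ≥ X0`: `F x ≤ F X + C (log X)^2` (as `x ≤ 2X+1`), where
`F x = ∑_{k ≤ x} f k`. Strong induction. (Compare `W_156d3b_h46/Dyadic2.lean`.) -/
theorem dyadic3 (f : ℕ → ℕ) (hf : ∀ k, f k ≤ 1) (C : ℝ) (hC : 0 ≤ C) (X0 : ℕ)
    (h : ∀ X ≥ X0, ((∑ k ∈ Finset.Ioc X (2 * X + 1), f k : ℕ) : ℝ) ≤ C * (Real.log X) ^ 2) :
    ∀ x : ℕ, 1 ≤ x → ((∑ k ∈ Finset.range (x + 1), f k : ℕ) : ℝ) ≤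
      (2 * X0 + 3 : ℕ) + C * (Real.log x) ^ 2 * ((Nat.log 2 x : ℕ) + 1) := by
  classical
  set F : ℕ → ℕ := fun x => ∑ k ∈ Finset.range (x + 1), f k with hF
  have hmono : ∀ x y, x ≤ y → F x ≤ F y := fun x y hxy =>
    Finset.sum_le_sum_of_subset (Finset.range_mono (Nat.succ_le_succ hxy))
  have hstep : ∀ x X, x ≤ 2 * X + 1 → F x ≤ F X + ∑ k ∈ Finset.Ioc X (2 * X + 1), f k := by
    intro x X hx
    have h1 : Disjoint (Finset.range (X + 1)) (Finset.Ioc X (2 * X + 1)) := by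
      rw [Finset.disjoint_left]
      intro a ha hb
      rw [Finset.mem_range] at ha
      rw [Finset.mem_Ioc] at hb
      omega
    show ∑ k ∈ Finset.range (x + 1), f k ≤ ∑ k ∈ Finset.range (X + 1), f k + _
    rw [← Finset.sum_union h1]
    refine Finset.sum_le_sum_of_subset fun a ha => ?_
    rw [Finset.mem_range] at ha
    rw [Finset.mem_union, Finset.mem_range, Finset.mem_Ioc]
    omega
  have h0 : F (2 * X0 + 2) ≤ 2 * X0 + 3 := by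
    show ∑ k ∈ Finset.range (2 * X0 + 2 + 1), f k ≤ 2 * X0 + 3
    calc ∑ k ∈ Finset.range (2 * X0 + 2 + 1), f k ≤ ∑ _k ∈ Finset.range (2 * X0 + 2 + 1), 1 :=
          Finset.sum_le_sum fun k _ => hf k
      _ = 2 * X0 + 3 := by simp
  intro x
  induction x using Nat.strong_induction_on with
  | _ x ih =>
    intro hx
    have hlogx : 0 ≤ Real.log x := Real.log_natCast_nonneg x
    change ((F x : ℕ) : ℝ) ≤ _
    by_cases hx0 : x ≤ 2 * X0 + 2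
    · have h1 : ((F x : ℕ) : ℝ) ≤ (2 * X0 + 3 : ℕ) := by
        exact_mod_cast (hmono _ _ hx0).trans h0
      have h2 : 0 ≤ C * (Real.log x) ^ 2 * ((Nat.log 2 x : ℕ) + 1) := by positivity
      linarith
    · have hX : X0 ≤ x / 2 := by omega
      have hX1 : 1 ≤ x / 2 := by omega
      have hXx : x / 2 < x := by omega
      have h1 : ((F x : ℕ) : ℝ) ≤ (F (x / 2) : ℕ) +
          ((∑ k ∈ Finset.Ioc (x / 2) (2 * (x / 2) + 1), f k : ℕ) : ℝ) := by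
        exact_mod_cast hstep x (x / 2) (by omega)
      have h2 := h (x / 2) hX
      have h3 : ((F (x / 2) : ℕ) : ℝ) ≤ _ := ih (x / 2) hXx hX1
      have h4 : Nat.log 2 x = Nat.log 2 (x / 2) + 1 := by
        rw [Nat.log_div_base]
        have : 0 < Nat.log 2 x := Nat.log_pos (by norm_num) (by omega)
        omega
      have h5 : 0 ≤ Real.log ((x / 2 : ℕ) : ℝ) := Real.log_natCast_nonneg _
      have h6 : Real.log ((x / 2 : ℕ) : ℝ) ≤ Real.log x := by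
        apply Real.log_le_log
        · exact_mod_cast hX1
        · exact_mod_cast hXx.le
      have h7 : Real.log ((x / 2 : ℕ) : ℝ) ^ 2 ≤ Real.log x ^ 2 := pow_le_pow_left₀ h5 h6 2
      have h8 : C * Real.log ((x / 2 : ℕ) : ℝ) ^ 2 ≤ C * Real.log x ^ 2 :=
        mul_le_mul_of_nonneg_left h7 hC
      have h9 : C * Real.log ((x / 2 : ℕ) : ℝ) ^ 2 * ((Nat.log 2 (x / 2) : ℕ) + 1) ≤
          C * Real.log x ^ 2 * ((Nat.log 2 (x / 2) : ℕ) + 1) :=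
        mul_le_mul_of_nonneg_right h8 (by positivity)
      rw [h4]
      push_cast at h3 ⊢
      nlinarith

/-- PROOF. `16 M^3 ≤ 400 * 4^M` and `(M+1) 2^(M+1) ≤ 4 * 4^M`; `log x ≥ log 2 > 0.69`, so
`Nat.log 2 x + 1 ≤ log x / log 2 + 1 ≤ 3 log x`. -/
theorem numer (C : ℝ) (hC : 0 ≤ C) (X00 : ℕ) : ∃ A : ℝ, ∀ M x : ℕ, 2 ≤ x →
    ((2 * (max X00 (16 * (M + 1) ^ 3)) + 3 : ℕ) : ℝ) +
      (C * 2 ^ (M + 1) * (M + 1)) * (Real.log x) ^ 2 * ((Nat.log 2 x : ℕ) + 1) ≤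
      A * 4 ^ M * (Real.log x) ^ 3 := by
  refine ⟨4 * (2 * (X00 : ℝ) + 67) + 6 * C, fun M x hx => ?_⟩
  have hx0 : (2 : ℝ) ≤ (x : ℝ) := by exact_mod_cast hx
  have hl2 := Real.log_two_gt_d9
  have hl : (0.69 : ℝ) ≤ Real.log x := by
    have h1 : Real.log 2 ≤ Real.log x := Real.log_le_log (by norm_num) hx0
    linarith
  have hlog : ((Nat.log 2 x : ℕ) : ℝ) + 1 ≤ 3 * Real.log x := by
    have h1 : 2 ^ Nat.log 2 x ≤ x := Nat.pow_log_le_self 2 (by omega)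
    have h2 : ((2 : ℝ) ^ Nat.log 2 x) ≤ (x : ℝ) := by exact_mod_cast h1
    have h3 := Real.log_le_log (by positivity) h2
    rw [Real.log_pow] at h3
    have h4 : (0 : ℝ) ≤ ((Nat.log 2 x : ℕ) : ℝ) := by positivity
    nlinarith
  have h4M : (1 : ℝ) ≤ 4 ^ M := one_le_pow₀ (by norm_num)
  have cube_le : ∀ M : ℕ, (M + 1) ^ 3 ≤ 2 * 4 ^ M := by
    intro M
    induction M with
    | zero => norm_num
    | succ M ih =>
      rcases Nat.eq_zero_or_pos M with rfl | hM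
      · norm_num
      · have h1 : (M + 1 + 1) ^ 3 ≤ 4 * (M + 1) ^ 3 := by
          nlinarith [sq_nonneg M, hM, Nat.mul_le_mul hM hM]
        calc (M + 1 + 1) ^ 3 ≤ 4 * (M + 1) ^ 3 := h1
          _ ≤ 4 * (2 * 4 ^ M) := Nat.mul_le_mul_left 4 ih
          _ = 2 * 4 ^ (M + 1) := by ring
  have two_pow_le : ∀ M : ℕ, 2 ^ (M + 1) * (M + 1) ≤ 2 * 4 ^ M := by
    intro M
    have h1 : M + 1 ≤ 2 ^ M := Nat.lt_two_pow_self
    calc 2 ^ (M + 1) * (M + 1) ≤ 2 ^ (M + 1) * 2 ^ M := Nat.mul_le_mul_left _ h1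
      _ = 2 * (2 ^ M * 2 ^ M) := by ring
      _ = 2 * 4 ^ M := by rw [← mul_pow]; norm_num
  have hcube : (((M + 1) ^ 3 : ℕ) : ℝ) ≤ 2 * 4 ^ M := by exact_mod_cast cube_le M
  have htwo : (2 : ℝ) ^ (M + 1) * ((M : ℝ) + 1) ≤ 2 * 4 ^ M := by exact_mod_cast two_pow_le M
  have hmax : ((max X00 (16 * (M + 1) ^ 3) : ℕ) : ℝ) ≤ X00 + 32 * 4 ^ M := by
    rcases le_total X00 (16 * (M + 1) ^ 3) with h | h
    · rw [max_eq_right h]
      push_cast at hcube ⊢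
      have : (0 : ℝ) ≤ (X00 : ℝ) := by positivity
      linarith
    · rw [max_eq_left h]
      linarith
  have hX : (0 : ℝ) ≤ (X00 : ℝ) := by positivity
  have hfirst : ((2 * (max X00 (16 * (M + 1) ^ 3)) + 3 : ℕ) : ℝ) ≤ (2 * (X00 : ℝ) + 67) * 4 ^ M := by
    have h1 : ((2 * (max X00 (16 * (M + 1) ^ 3)) + 3 : ℕ) : ℝ) =
        2 * ((max X00 (16 * (M + 1) ^ 3) : ℕ) : ℝ) + 3 := by push_cast; ring
    rw [h1]
    nlinarith
  have hL : (0 : ℝ) ≤ Real.log x := by linarith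
  have hcub : (1 : ℝ) ≤ 4 * (Real.log x) ^ 3 := by
    have h1 : (0.69 : ℝ) ^ 3 ≤ (Real.log x) ^ 3 := pow_le_pow_left₀ (by norm_num) hl 3
    norm_num at h1
    linarith
  have hA : (2 * (X00 : ℝ) + 67) * 4 ^ M ≤
      (4 * (2 * (X00 : ℝ) + 67)) * 4 ^ M * (Real.log x) ^ 3 := by
    have h1 : 0 ≤ (2 * (X00 : ℝ) + 67) * 4 ^ M := by positivity
    calc (2 * (X00 : ℝ) + 67) * 4 ^ M = ((2 * (X00 : ℝ) + 67) * 4 ^ M) * 1 := (mul_one _).symm
      _ ≤ ((2 * (X00 : ℝ) + 67) * 4 ^ M) * (4 * (Real.log x) ^ 3) :=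
          mul_le_mul_of_nonneg_left hcub h1
      _ = _ := by ring
  have hB : (C * 2 ^ (M + 1) * (M + 1)) * (Real.log x) ^ 2 * ((Nat.log 2 x : ℕ) + 1) ≤
      6 * C * 4 ^ M * (Real.log x) ^ 3 := by
    have h1 : C * 2 ^ (M + 1) * ((M : ℝ) + 1) ≤ C * (2 * 4 ^ M) := by
      rw [mul_assoc]
      exact mul_le_mul_of_nonneg_left htwo hC
    calc (C * 2 ^ (M + 1) * ((M : ℝ) + 1)) * (Real.log x) ^ 2 * (((Nat.log 2 x : ℕ) : ℝ) + 1)
        ≤ (C * (2 * 4 ^ M)) * (Real.log x) ^ 2 * (3 * Real.log x) := by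
          apply mul_le_mul _ hlog (by positivity) (by positivity)
          exact mul_le_mul_of_nonneg_right h1 (by positivity)
      _ = _ := by ring
  calc _ ≤ (2 * (X00 : ℝ) + 67) * 4 ^ M + 6 * C * 4 ^ M * (Real.log x) ^ 3 :=
        add_le_add hfirst hB
    _ ≤ (4 * (2 * (X00 : ℝ) + 67)) * 4 ^ M * (Real.log x) ^ 3 +
        6 * C * 4 ^ M * (Real.log x) ^ 3 := by linarith
    _ = _ := by ring

end Fac46
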