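import Pool.Agent.W_198aa6_h46.FWin
import Pool.Agent.W_198aa6_h46.FDyadic

namespace Fac46

open Nat Sur46

/-- `n!` is a product of at least two distinct positive integers with spread at most `M` -/
def Q (M n : ℕ) : Prop := 2 ≤ n ∧ ∃ A : Finset ℕ, 2 ≤ A.card ∧ ∏ a ∈ A, a = n ! ∧
  ∀ a ∈ A, ∀ b ∈ A, b ≤ a + M

theorem Q_shape {M n : ℕ} (h : Q M n) :
    ∃ S ∈ (Finset.range (M + 1)).powerset.filter (fun S => 2 ≤ S.card), ∃ a, FS S n a := by
  obtain ⟨hn, A, hA2, hprod, hspread⟩ := h
  have hne : A.Nonempty := Finset.card_pos.1 (by omega)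
  set a := A.min' hne with ha
  have hmin : ∀ b ∈ A, a ≤ b := fun b hb => Finset.min'_le A b hb
  have hmem : a ∈ A := Finset.min'_mem A hne
  have hapos : 1 ≤ a := by
    rcases Nat.eq_zero_or_pos a with h0 | h0
    · have : ∏ a ∈ A, a = 0 := Finset.prod_eq_zero hmem h0
      rw [this] at hprod
      exact absurd hprod.symm (Nat.factorial_ne_zero n)
    · exact h0
  refine ⟨A.image (fun b => b - a), ?_, a, hn, hapos, ?_⟩
  · have hinj : Set.InjOn (fun b => b - a) (A : Set ℕ) := by
      intro b hb c hc hbc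
      have h1 := hmin b hb
      have h2 := hmin c hc
      have h3 : b - a = c - a := hbc
      omega
    rw [Finset.mem_filter, Finset.mem_powerset, Finset.card_image_of_injOn hinj]
    refine ⟨?_, hA2⟩
    intro j hj
    obtain ⟨b, hb, rfl⟩ := Finset.mem_image.1 hj
    have := hspread a hmem b hb
    exact Finset.mem_range.2 (by omega)
  · rw [Finset.prod_image]
    · rw [← hprod]
      apply Finset.prod_congr rfl
      intro b hb
      have := hmin b hb
      omega
    · intro b hb c hc hbc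
      have h1 := hmin b hb
      have h2 := hmin c hc
      have h3 : b - a = c - a := hbc
      omega

open Classical in
/-- indicator of `Q M` -/
noncomputable def ind (M n : ℕ) : ℕ := if Q M n then 1 else 0

theorem blockF : ∃ C : ℝ, ∃ X0 : ℕ, 0 ≤ C ∧ ∀ M : ℕ, ∀ X ≥ max X0 (16 * (M + 1) ^ 3),
    ((∑ n ∈ Finset.Ioc X (2 * X + 1), ind M n : ℕ) : ℝ) ≤
      (C * 2 ^ (M + 1) * (M + 1)) * (Real.log X) ^ 2 := by
  classical
  obtain ⟨X1, hX12, h1⟩ := windowF
  obtain ⟨C, hC, h3⟩ := asympF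
  refine ⟨C, X1, hC, ?_⟩
  intro M X hX
  have hX1 : X1 ≤ X := le_trans (le_max_left _ _) hX
  have hM : 16 * (M + 1) ^ 3 ≤ X := le_trans (le_max_right _ _) hX
  have hX2 : 2 ≤ X := le_trans hX12 hX1
  set SS := (Finset.range (M + 1)).powerset.filter (fun S => 2 ≤ S.card) with hSS
  have hSScard : SS.card ≤ 2 ^ (M + 1) := by
    calc SS.card ≤ (Finset.range (M + 1)).powerset.card := Finset.card_le_card (Finset.filter_subset _ _)
      _ = 2 ^ (M + 1) := by rw [Finset.card_powerset, Finset.card_range]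
  have hcount : ∀ S ∈ SS,
      (((Finset.Ioc X (2 * X + 1)).filter (fun n => ∃ a, FS S n a)).card : ℝ) ≤
        C * (M + 1) * (Real.log X) ^ 2 := by
    intro S hS
    obtain ⟨hSr, hS2⟩ := Finset.mem_filter.1 hS
    rw [Finset.mem_powerset] at hSr
    have hSM : ∀ j ∈ S, j ≤ M := by
      intro j hj
      have := Finset.mem_range.1 (hSr hj)
      omega
    have hScard : S.card ≤ M + 1 := by
      have := Finset.card_le_card hSr
      simpa using this
    have h4 := cover (fun n => ∃ a, FS S n a) X (W2 2 X) (S.card * ⌊8 * Real.log (4 * X)⌋₊)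
      (by omega)
      (by
        intro K hK hK3
        apply h1 X hX1 M hM K hK hK3 S hS2 hSM _ (Finset.filter_subset _ _)
        intro n hn
        exact (Finset.mem_filter.1 hn).2)
    have h5 := h3 X hX2 S.card
    have h6 : (((Finset.Ioc X (2 * X + 1)).filter (fun n => ∃ a, FS S n a)).card : ℝ) ≤
        C * S.card * (Real.log X) ^ 2 := le_trans (by exact_mod_cast h4) h5
    refine le_trans h6 ?_
    have h7 : (S.card : ℝ) ≤ (M + 1 : ℝ) := by exact_mod_cast hScard
    have h8 : 0 ≤ (Real.log X) ^ 2 := by positivity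
    exact mul_le_mul_of_nonneg_right (mul_le_mul_of_nonneg_left h7 hC) h8
  have hle : ∑ n ∈ Finset.Ioc X (2 * X + 1), ind M n ≤
      ∑ S ∈ SS, ((Finset.Ioc X (2 * X + 1)).filter (fun n => ∃ a, FS S n a)).card := by
    have e1 : ∑ n ∈ Finset.Ioc X (2 * X + 1), ind M n =
        ((Finset.Ioc X (2 * X + 1)).filter (fun n => Q M n)).card := by
      rw [Finset.card_filter]
      apply Finset.sum_congr rfl
      intro n _
      unfold ind
      congr
    rw [e1]
    refine le_trans (Finset.card_le_card ?_) Finset.card_biUnion_le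
    intro n hn
    obtain ⟨hnI, hQ⟩ := Finset.mem_filter.1 hn
    obtain ⟨S, hS, ha⟩ := Q_shape hQ
    rw [Finset.mem_biUnion]
    exact ⟨S, hS, Finset.mem_filter.2 ⟨hnI, ha⟩⟩
  calc ((∑ n ∈ Finset.Ioc X (2 * X + 1), ind M n : ℕ) : ℝ) ≤
      ((∑ S ∈ SS, ((Finset.Ioc X (2 * X + 1)).filter (fun n => ∃ a, FS S n a)).card : ℕ) : ℝ) := by
        exact_mod_cast hle
    _ = ∑ S ∈ SS, (((Finset.Ioc X (2 * X + 1)).filter (fun n => ∃ a, FS S n a)).card : ℝ) := by
        push_cast; rfl
    _ ≤ ∑ S ∈ SS, C * (M + 1) * (Real.log X) ^ 2 := Finset.sum_le_sum hcount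
    _ = SS.card * (C * (M + 1) * (Real.log X) ^ 2) := by rw [Finset.sum_const, nsmul_eq_mul]
    _ ≤ (2 ^ (M + 1) : ℕ) * (C * (M + 1) * (Real.log X) ^ 2) := by
        apply mul_le_mul_of_nonneg_right
        · exact_mod_cast hSScard
        · positivity
    _ = (C * 2 ^ (M + 1) * (M + 1)) * (Real.log X) ^ 2 := by push_cast; ring

theorem mainF : ∃ A : ℝ, ∀ M x : ℕ, 2 ≤ x →
    (Set.ncard {n : ℕ | n ≤ x ∧ Q M n} : ℝ) ≤ A * 4 ^ M * (Real.log x) ^ 3 := by
  classical
  obtain ⟨C, X0, hC, h⟩ := blockF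
  obtain ⟨A, hA⟩ := numer C hC X0
  refine ⟨A, fun M x hx => le_trans ?_ (hA M x hx)⟩
  have h1 := dyadic3 (ind M) (by intro k; unfold ind; split_ifs <;> omega)
    (C * 2 ^ (M + 1) * (M + 1)) (by positivity) (max X0 (16 * (M + 1) ^ 3)) (h M) x (by omega)
  refine le_trans ?_ h1
  have e : Set.ncard {n : ℕ | n ≤ x ∧ Q M n} = ∑ k ∈ Finset.range (x + 1), ind M k := by
    have e1 : ∑ n ∈ Finset.range (x + 1), ind M n =
        ((Finset.range (x + 1)).filter (fun n => Q M n)).card := by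
      rw [Finset.card_filter]
      apply Finset.sum_congr rfl
      intro n _
      unfold ind
      congr
    rw [e1, ← Set.ncard_coe_finset]
    congr 1
    ext n
    simp only [Set.mem_setOf_eq, Finset.coe_filter, Finset.mem_range]
    constructor
    · rintro ⟨a, b⟩; exact ⟨by omega, b⟩
    · rintro ⟨a, b⟩; exact ⟨by omega, b⟩
  rw [e]

end Fac46
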