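import Pool.Agent.W_198aa6_h46.FDefs
import Pool.Agent.W_156d3b_h46.Padic

namespace Fac46

open Nat

/-- PROOF (compare `Sol.padic` in `W_156d3b_h46/Padic.lean`). Let `i ∈ S` maximise `v_p(a+i)`.  For `j ∈ S`, `j ≠ i`,
`p^{v_p(a+j)}` divides `|i-j|`, `1 ≤ |i-j| ≤ M`, so it divides `M!`.  So
`v_p(n!) = ∑_{j ∈ S} v_p(a+j) ≤ v_p(a+i) + (|S|-1) v_p(M!)`. -/
theorem FS.padic {S : Finset ℕ} {n a M : ℕ} (h : FS S n a) (hS : ∀ j ∈ S, j ≤ M) {p : ℕ}
    (hp : p.Prime) : ∃ i ∈ S, ∀ e, p ^ e ∣ n ! → p ^ e ∣ (a + i) * (M !) ^ (S.card - 1) := by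
  obtain ⟨hn, ha, hf⟩ := h
  have hSne : S.Nonempty := by
    rw [Finset.nonempty_iff_ne_empty]
    rintro rfl
    rw [Finset.prod_empty] at hf
    have h3 := Nat.self_le_factorial n
    omega
  obtain ⟨i0, hi0, hmax⟩ := Finset.exists_max_image S (fun j => (a + j).factorization p) hSne
  have hfne : M ! ≠ 0 := Nat.factorial_ne_zero _
  have key : ∀ j ∈ S.erase i0, (a + j).factorization p ≤ (M !).factorization p := by
    intro j hj
    obtain ⟨hne, hjr⟩ := Finset.mem_erase.mp hj
    have h1 : p ^ ((a + j).factorization p) ∣ a + j := Nat.ordProj_dvd _ _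
    have h2 : p ^ ((a + j).factorization p) ∣ a + i0 :=
      (pow_dvd_pow p (hmax j hjr)).trans (Nat.ordProj_dvd _ _)
    have hjM := hS j hjr
    have hiM := hS i0 hi0
    have h3 : p ^ ((a + j).factorization p) ∣ M ! := by
      rcases Nat.lt_or_gt_of_ne hne with hlt | hgt
      · have h4 := Nat.dvd_sub h2 h1
        have h5 : a + i0 - (a + j) = i0 - j := by omega
        rw [h5] at h4
        exact h4.trans (Nat.dvd_factorial (by omega) (by omega))
      · have h4 := Nat.dvd_sub h1 h2
        have h5 : a + j - (a + i0) = j - i0 := by omega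
        rw [h5] at h4
        exact h4.trans (Nat.dvd_factorial (by omega) (by omega))
    exact (hp.pow_dvd_iff_le_factorization hfne).mp h3
  have hv : (n !).factorization p ≤ ((a + i0) * (M !) ^ (S.card - 1)).factorization p := by
    rw [Nat.factorization_mul (by omega) (pow_ne_zero _ hfne), Nat.factorization_pow]
    have h1 : (n !).factorization p = ∑ j ∈ S, (a + j).factorization p := by
      rw [← hf, Nat.factorization_prod_apply]
      intro x _
      omega
    rw [h1, ← Finset.add_sum_erase _ _ hi0]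
    have h2 : ∑ j ∈ S.erase i0, (a + j).factorization p
        ≤ (S.card - 1) * (M !).factorization p := by
      have h3 := Finset.sum_le_card_nsmul _ _ _ key
      rw [Finset.card_erase_of_mem hi0] at h3
      simpa [smul_eq_mul] using h3
    simp only [Finsupp.coe_add, Finsupp.coe_smul, Pi.add_apply, Pi.smul_apply, smul_eq_mul]
    exact Nat.add_le_add_left h2 _
  refine ⟨i0, hi0, ?_⟩
  intro e he
  have hne : (a + i0) * (M !) ^ (S.card - 1) ≠ 0 :=
    mul_ne_zero (by omega) (pow_ne_zero _ hfne)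
  rw [hp.pow_dvd_iff_le_factorization hne]
  exact ((hp.pow_dvd_iff_le_factorization (Nat.factorial_ne_zero n)).mp he).trans hv

end Fac46
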