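import Pool.Agent.W_156d3b_h46.PDefs

namespace Fac46

open Nat Sur46

/-- PROOF. `log ((M!)^(t-1)) ≤ M * log (M!) ≤ M * M^2`-ish: `log (M!) ≤ M log M ≤ M^2`, `t - 1 ≤ M`, so it is
`≤ M^3 ≤ X/16`. -/
theorem logE_le {M X t : ℕ} (hX : 16 * (M + 1) ^ 3 ≤ X) (ht : t ≤ M + 1) :
    Real.log (((M !) ^ (t - 1) : ℕ) : ℝ) ≤ (X : ℝ) / 16 := by
  have hX' : (16 : ℝ) * ((M : ℝ) + 1) ^ 3 ≤ X := by exact_mod_cast hX
  have hM0 : (0 : ℝ) ≤ (M : ℝ) := Nat.cast_nonneg M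
  have h1 : Real.log ((M ! : ℕ) : ℝ) ≤ (M : ℝ) * M := by
    have h2 : ((M ! : ℕ) : ℝ) ≤ (M : ℝ) ^ M := by exact_mod_cast Nat.factorial_le_pow M
    have h3 : (0 : ℝ) < ((M ! : ℕ) : ℝ) := by exact_mod_cast Nat.factorial_pos M
    refine (Real.log_le_log h3 h2).trans ?_
    rw [Real.log_pow]
    exact mul_le_mul_of_nonneg_left (Real.log_le_self hM0) hM0
  have h0 : (0 : ℝ) ≤ Real.log ((M ! : ℕ) : ℝ) :=
    Real.log_nonneg (by exact_mod_cast Nat.succ_le_iff.2 (Nat.factorial_pos M))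
  rw [Nat.cast_pow, Real.log_pow]
  have h4 : ((t - 1 : ℕ) : ℝ) ≤ M := by
    have : t - 1 ≤ M := by omega
    exact_mod_cast this
  have h5 : ((t - 1 : ℕ) : ℝ) * Real.log ((M ! : ℕ) : ℝ) ≤ (M : ℝ) * ((M : ℝ) * M) :=
    mul_le_mul h4 h1 h0 hM0
  have h6 : (M : ℝ) * ((M : ℝ) * M) ≤ ((M : ℝ) + 1) ^ 3 := by nlinarith [mul_nonneg hM0 hM0]
  linarith

/-- lower bound for `log (4X)` -/
theorem FSmall_log {X : ℕ} (hX : 1 ≤ X) : 1 ≤ Real.log (4 * X) := by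
  have hX' : (1 : ℝ) ≤ (X : ℝ) := by exact_mod_cast hX
  have hl2 := Real.log_two_gt_d9
  have h4 : Real.log ((2 : ℝ) ^ 2) ≤ Real.log (4 * X) :=
    Real.log_le_log (by norm_num) (by norm_num; linarith)
  rw [Real.log_pow] at h4
  push_cast at h4
  linarith

/-- PROOF. `log(4X) ≥ 1`, so `W2 2 X ≤ 2X/16`. -/
theorem W2_two_le {X : ℕ} (hX : 1 ≤ X) : W2 2 X ≤ X := by
  have hX' : (1 : ℝ) ≤ (X : ℝ) := by exact_mod_cast hX
  have hL := FSmall_log hX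
  unfold W2
  refine Nat.floor_le_of_le ?_
  rw [div_le_iff₀ (by linarith)]
  push_cast
  nlinarith

/-- PROOF. `(X+1)/(w+1) + 1 ≤ 8 log(4X) (X+1)/X + 1 ≤ 17 log (4X)`, and `log (4X) ≤ 3 log X` for `X ≥ 2`. -/
theorem asympF : ∃ C : ℝ, 0 ≤ C ∧ ∀ X : ℕ, 2 ≤ X → ∀ t : ℕ,
    ((((X + 1) / (W2 2 X + 1) + 1) * (t * ⌊8 * Real.log (4 * X)⌋₊) : ℕ) : ℝ)
      ≤ C * t * (Real.log X) ^ 2 := by
  refine ⟨1224, by norm_num, ?_⟩
  intro X hX t
  have hX' : (2 : ℝ) ≤ (X : ℝ) := by exact_mod_cast hX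
  have ht : (0 : ℝ) ≤ (t : ℝ) := Nat.cast_nonneg t
  have hL1 := FSmall_log (X := X) (by omega)
  have hL3 : Real.log (4 * X) ≤ 3 * Real.log X := by
    have h1 : Real.log (4 * X) = Real.log 4 + Real.log X :=
      Real.log_mul (by norm_num) (by linarith)
    have h2 : Real.log 4 = 2 * Real.log 2 := by
      rw [show (4 : ℝ) = 2 ^ 2 by norm_num, Real.log_pow]
      push_cast
      ring
    have h3 : Real.log 2 ≤ Real.log X := Real.log_le_log (by norm_num) hX'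
    rw [h1, h2]
    linarith
  obtain ⟨L, hL⟩ : ∃ L : ℝ, L = Real.log (4 * X) := ⟨_, rfl⟩
  have hw : ((2 : ℕ) * X : ℝ) / (16 * L) < (W2 2 X : ℝ) + 1 := by
    unfold W2
    rw [hL]
    exact Nat.lt_floor_add_one _
  rw [← hL] at hL1 hL3 ⊢
  have hwpos : 0 < ((2 : ℕ) * X : ℝ) / (16 * L) := by positivity
  have h1 : (((X + 1) / (W2 2 X + 1) : ℕ) : ℝ) ≤ 16 * L := by
    have h2 : (((X + 1) / (W2 2 X + 1) : ℕ) : ℝ) ≤ ((X + 1 : ℕ) : ℝ) / ((W2 2 X + 1 : ℕ) : ℝ) :=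
      Nat.cast_div_le
    refine h2.trans ?_
    push_cast
    have h3 : ((X : ℝ) + 1) / ((W2 2 X : ℝ) + 1) ≤ ((X : ℝ) + 1) / (((2 : ℕ) * X : ℝ) / (16 * L)) :=
      div_le_div_of_nonneg_left (by linarith) hwpos hw.le
    refine h3.trans ?_
    rw [div_div_eq_mul_div, div_le_iff₀ (by positivity)]
    push_cast
    nlinarith
  have h2 : (⌊8 * L⌋₊ : ℝ) ≤ 8 * L := Nat.floor_le (by linarith)
  push_cast
  have h3 : ((((X + 1) / (W2 2 X + 1) : ℕ) : ℝ) + 1) * (t * (⌊8 * L⌋₊ : ℝ)) ≤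
      (16 * L + 1) * (t * (8 * L)) := by
    apply mul_le_mul
    · linarith
    · exact mul_le_mul_of_nonneg_left h2 ht
    · positivity
    · positivity
  have h4 : (16 * L + 1) * (t * (8 * L)) ≤ 136 * t * L ^ 2 := by
    have : (16 * L + 1) * (t * (8 * L)) ≤ (17 * L) * (t * (8 * L)) :=
      mul_le_mul_of_nonneg_right (by linarith) (by positivity)
    nlinarith
  have h5 : L ^ 2 ≤ (3 * Real.log X) ^ 2 := by
    apply pow_le_pow_left₀ (by linarith) hL3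
  have h6 : 136 * t * L ^ 2 ≤ 136 * t * (3 * Real.log X) ^ 2 :=
    mul_le_mul_of_nonneg_left h5 (by positivity)
  have h7 : 136 * (t : ℝ) * (3 * Real.log X) ^ 2 = 1224 * t * (Real.log X) ^ 2 := by ring
  linarith

end Fac46
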