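import Pool.Agent.W_198aa6_h46.FDefs
import Pool.Agent.W_198aa6_h46.FPadic
import Pool.Agent.W_198aa6_h46.FSmall
import Pool.Agent.W_156d3b_h46.WinP
import Pool.Agent.W_156d3b_h46.Cover

namespace Fac46

open Nat Sur46

theorem FS.pow_le {S : Finset ℕ} {n a : ℕ} (h : FS S n a) : a ^ S.card ≤ n ! := by
  rw [← h.2.2, ← Finset.prod_const]
  exact Finset.prod_le_prod' (fun j _ => Nat.le_add_right a j)

theorem FS.a_lt {S : Finset ℕ} {n n' a a' : ℕ} (h : FS S n a) (h' : FS S n' a') (hn : n < n') :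
    a < a' := by
  by_contra hcon
  push Not at hcon
  have h1 : n' ! ≤ n ! := by
    rw [← h.2.2, ← h'.2.2]
    exact Finset.prod_le_prod' (fun j _ => Nat.add_le_add_right hcon j)
  have h2 : n ! < n' ! := Nat.factorial_lt_of_lt (by have := h.1; omega) hn
  omega

/-- rank of an element of the shape -/
def rk (S : Finset ℕ) (i : ℕ) : ℕ := (S.filter (fun j => j ≤ i)).card

theorem rk_mem {S : Finset ℕ} {i : ℕ} (hi : i ∈ S) : 1 ≤ rk S i ∧ rk S i ≤ S.card := by
  constructor
  · apply Finset.card_pos.2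
    exact ⟨i, Finset.mem_filter.2 ⟨hi, le_rfl⟩⟩
  · exact Finset.card_le_card (Finset.filter_subset _ _)

theorem rk_lt {S : Finset ℕ} {i j : ℕ} (hj : j ∈ S) (hij : i < j) : rk S i < rk S j := by
  apply Finset.card_lt_card
  rw [Finset.ssubset_iff_of_subset]
  · exact ⟨j, Finset.mem_filter.2 ⟨hj, le_rfl⟩, by
      intro h
      have := (Finset.mem_filter.1 h).2
      omega⟩
  · intro l hl
    rw [Finset.mem_filter] at hl ⊢
    exact ⟨hl.1, by omega⟩

theorem rk_inj {S : Finset ℕ} {i j : ℕ} (hi : i ∈ S) (hj : j ∈ S) (h : rk S i = rk S j) : i = j := by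
  rcases lt_trichotomy i j with h1 | h1 | h1
  · have := rk_lt hj h1; omega
  · exact h1
  · have := rk_lt hi h1; omega

/-- the core estimate: one window, one shape, one value of the index of the prime 2 -/
theorem window_coreF : ∃ X0 : ℕ, 2 ≤ X0 ∧ ∀ X ≥ X0, ∀ M : ℕ, 16 * (M + 1) ^ 3 ≤ X →
    ∀ K, X ≤ K → K ≤ 3 * X → ∀ S : Finset ℕ, 2 ≤ S.card → (∀ j ∈ S, j ≤ M) →
    ∀ (U : Finset ℕ) (a : ℕ → ℕ) (i : ℕ → ℕ → ℕ), U ⊆ Finset.Icc K (K + W2 2 X) →
    (∀ n ∈ U, FS S n (a n)) →
    (∀ p, p.Prime → ∀ n ∈ U, i p n ∈ S ∧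
      ∀ e, p ^ e ∣ n ! → p ^ e ∣ (a n + i p n) * (M !) ^ (S.card - 1)) →
    (∀ n ∈ U, ∀ n' ∈ U, i 2 n = i 2 n') →
    U.card ≤ ⌊8 * Real.log (4 * X)⌋₊ := by
  obtain ⟨K2, h2⟩ := wt_two
  refine ⟨max 2 K2, le_max_left _ _, ?_⟩
  intro X hX M hM K hXK hK3 S hSc hSM U a i hU hsol hi hagree
  have hK2 : K2 ≤ K := le_trans (le_trans (le_max_right _ _) hX) hXK
  have hX2 : 2 ≤ X := le_trans (le_max_left _ _) hX
  have hW : W2 2 X ≤ X := W2_two_le (by omega)
  have hcardM : S.card ≤ M + 1 := by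
    have h1 : S ⊆ Finset.range (M + 1) := by
      intro j hj
      have := hSM j hj
      exact Finset.mem_range.2 (by omega)
    have := Finset.card_le_card h1
    simpa using this
  have hE := logE_le hM hcardM
  have hw2 := h2 K hK2
  set t := S.card with ht
  have hXpos : (0:ℝ) < X := by exact_mod_cast (by omega : 0 < X)
  have hKpos : (0:ℝ) < K := by exact_mod_cast (by omega : 0 < K)
  have htpos : (0:ℝ) < t := by exact_mod_cast (by omega : 0 < t)
  have ht2' : (2:ℝ) ≤ t := by exact_mod_cast hSc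
  have hXK' : (X:ℝ) ≤ K := by exact_mod_cast hXK
  have hXge : (2:ℝ) ≤ X := by exact_mod_cast hX2
  have hlog1 : (1:ℝ) ≤ Real.log (4 * X) := by
    rw [Real.le_log_iff_exp_le (by positivity)]
    have := Real.exp_one_lt_d9
    linarith
  set E := (M !) ^ (t - 1) with hEdef
  have hEpos : 0 < E := pow_pos (Nat.factorial_pos _) _
  set T := Real.log (K ! : ℕ) with hT
  have hTnn : 0 ≤ T := Real.log_natCast_nonneg _
  -- the window term
  have hWlog : (W2 2 X : ℝ) * Real.log (4 * X) ≤ 2 * X / 16 := by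
    have h3 : (W2 2 X : ℝ) ≤ ((2:ℕ) * X : ℝ) / (16 * Real.log (4 * X)) := by
      unfold W2
      exact Nat.floor_le (by positivity)
    calc (W2 2 X : ℝ) * Real.log (4 * X)
        ≤ ((2:ℕ) * X : ℝ) / (16 * Real.log (4 * X)) * Real.log (4 * X) :=
          mul_le_mul_of_nonneg_right h3 (by linarith)
      _ = 2 * X / 16 := by
          have hne : Real.log (4 * (X:ℝ)) ≠ 0 := by linarith
          generalize Real.log (4 * (X:ℝ)) = L at hne
          push_cast
          field_simp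
  have hKW : Real.log ((K + W2 2 X : ℕ) : ℝ) ≤ Real.log (4 * X) := by
    apply Real.log_le_log
    · exact_mod_cast (by omega : 0 < K + W2 2 X)
    · have : K + W2 2 X ≤ 4 * X := by omega
      exact_mod_cast this
  have halog : ∀ n ∈ U, Real.log (a n) ≤ T / t + X / 16 := by
    intro n hn
    have hs := hsol n hn
    have hI := Finset.mem_Icc.1 (hU hn)
    have h6 : (a n) ^ t ≤ (K + W2 2 X)! := le_trans hs.pow_le (Nat.factorial_le hI.2)
    have hapos : 0 < a n := hs.2.1
    have h7 : (t : ℝ) * Real.log (a n) ≤ Real.log ((K + W2 2 X)! : ℕ) := by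
      rw [← Real.log_pow]
      apply Real.log_le_log
      · have : 0 < (a n) ^ t := pow_pos hapos _
        exact_mod_cast this
      · exact_mod_cast h6
    have h8 := log_fact_le (K := K) (w := W2 2 X) (by omega)
    have h9 : (W2 2 X : ℝ) * Real.log ((K + W2 2 X : ℕ) : ℝ) ≤ 2 * X / 16 :=
      le_trans (mul_le_mul_of_nonneg_left hKW (by positivity)) hWlog
    have h9' : (2:ℝ) * X / 16 ≤ t * X / 16 := by
      have := mul_le_mul_of_nonneg_right ht2' hXpos.le
      linarith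
    have h10 : (t : ℝ) * Real.log (a n) ≤ T + t * X / 16 := by linarith
    have h11 : Real.log (a n) ≤ (T + t * X / 16) / t := by
      rw [le_div_iff₀ htpos]; linarith
    calc Real.log (a n) ≤ (T + t * X / 16) / t := h11
      _ = T / t + X / 16 := by field_simp
  have hdvd : ∀ n ∈ U, ∀ p, p.Prime → ∀ e, p ^ e ∣ K ! → p ^ e ∣ (a n + i p n) * E := by
    intro n hn p hp e he
    have hI := Finset.mem_Icc.1 (hU hn)
    exact (hi p hp n hn).2 e (dvd_trans he (Nat.factorial_dvd_factorial hI.1))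
  have hpair : ∀ n ∈ U, ∀ n' ∈ U, n < n' →
      ∑ p ∈ (primesTo K).filter (fun p => i p n = i p n'), wt K p ≤ T / t + X / 8 := by
    intro n hn n' hn' hlt
    have h3 := pair_le hEpos (FS.a_lt (hsol n hn) (hsol n' hn') hlt)
      (fun p => i p n) (fun p => i p n') (hdvd n hn) (hdvd n' hn')
    have h4 := halog n' hn'
    have h5 : Real.log (E : ℝ) ≤ X / 16 := hE
    calc _ ≤ Real.log (a n') + Real.log (E : ℝ) := h3
      _ ≤ T / t + X / 8 := by linarith
  have hprime : ∀ p ∈ primesTo K, p.Prime := by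
    intro p hp
    simp only [primesTo, Finset.mem_filter] at hp
    exact hp.2
  have h2mem : 2 ∈ primesTo K := by
    simp only [primesTo, Finset.mem_filter, Finset.mem_range]
    exact ⟨by omega, Nat.prime_two⟩
  have hfeq : ∀ n ∈ U, ∀ n' ∈ U,
      (primesTo K).filter (fun p => rk S (i p n) = rk S (i p n')) =
      (primesTo K).filter (fun p => i p n = i p n') := by
    intro n hn n' hn'
    ext p
    simp only [Finset.mem_filter]
    constructor
    · rintro ⟨hp, h⟩
      exact ⟨hp, rk_inj (hi p (hprime p hp) n hn).1 (hi p (hprime p hp) n' hn').1 h⟩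
    · rintro ⟨hp, h⟩
      exact ⟨hp, by rw [h]⟩
  have hpl := plotkin (primesTo K) U (fun p n => rk S (i p n)) t (by omega) (wt K)
    (fun p _ => wt_nonneg K p)
    (by
      intro p hp n hn
      exact rk_mem (hi p (hprime p hp) n hn).1)
    2 h2mem
    (by intro n hn n' hn'; show rk S (i 2 n) = rk S (i 2 n'); rw [hagree n hn n' hn']) (T / t + X / 8)
    (by
      intro n hn n' hn' hne
      rw [hfeq n hn n' hn']
      rcases Nat.lt_or_gt_of_ne hne with h | h
      · exact hpair n hn n' hn' h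
      · have h3 := hpair n' hn' n hn h
        have : (primesTo K).filter (fun p => i p n = i p n') =
            (primesTo K).filter (fun p => i p n' = i p n) := by
          ext p
          simp only [Finset.mem_filter]
          constructor <;> rintro ⟨a, b⟩ <;> exact ⟨a, b.symm⟩
        rw [this]
        exact h3)
  rw [sum_wt, ← hT] at hpl
  set N : ℝ := (U.card : ℝ) with hN
  have hNnn : 0 ≤ N := by positivity
  have h12 : N ^ 2 / t * T = N ^ 2 * (T / t) := by ring
  rw [h12] at hpl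
  have hTδ : 0 ≤ T / t := by positivity
  have hinv : (1:ℝ) / t ≤ 1 / 2 := one_div_le_one_div_of_le (by norm_num) ht2'
  have h13 : (K:ℝ) / 4 ≤ (1 - 1 / (t:ℝ)) * wt K 2 := by
    have : (1/2 : ℝ) * (K / 2) ≤ (1 - 1 / (t:ℝ)) * wt K 2 := by
      apply mul_le_mul _ hw2 (by positivity) (by linarith)
      linarith
    linarith
  have h14 : N ^ 2 * ((K:ℝ) / 4) ≤ N ^ 2 * ((1 - 1 / (t:ℝ)) * wt K 2) :=
    mul_le_mul_of_nonneg_left h13 (by positivity)
  have h15 : N ^ 2 * ((K:ℝ) / 8) ≤ N * T := by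
    have h16 : 0 ≤ N * (T / t + X / 8) := by positivity
    have h17 : N ^ 2 * ((X:ℝ) / 8) ≤ N ^ 2 * ((K:ℝ) / 8) := by
      apply mul_le_mul_of_nonneg_left _ (by positivity); linarith
    nlinarith
  have hTK := log_fact_le_mul K (by omega)
  rw [← hT] at hTK
  have hlogK : Real.log K ≤ Real.log (4 * X) := by
    apply Real.log_le_log hKpos
    have : (K:ℝ) ≤ 3 * X := by exact_mod_cast hK3
    linarith
  apply Nat.le_floor
  rw [← hN]
  rcases eq_or_lt_of_le hNnn with h | h
  · rw [← h]; positivity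
  · have h18 : N * ((K:ℝ) / 8) ≤ T := by
      have : N * (N * ((K:ℝ) / 8)) ≤ N * T := by nlinarith
      exact le_of_mul_le_mul_left this h
    have h19 : N * ((K:ℝ) / 8) ≤ K * Real.log (4 * X) := by
      calc N * ((K:ℝ) / 8) ≤ T := h18
        _ ≤ K * Real.log K := hTK
        _ ≤ K * Real.log (4 * X) := mul_le_mul_of_nonneg_left hlogK hKpos.le
    have h20 : (K:ℝ) * N ≤ K * (8 * Real.log (4 * X)) := by nlinarith
    exact le_of_mul_le_mul_left h20 hKpos

/-- one window, one shape -/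
theorem windowF : ∃ X0 : ℕ, 2 ≤ X0 ∧ ∀ X ≥ X0, ∀ M : ℕ, 16 * (M + 1) ^ 3 ≤ X →
    ∀ K, X ≤ K → K ≤ 3 * X → ∀ S : Finset ℕ, 2 ≤ S.card → (∀ j ∈ S, j ≤ M) →
    ∀ U : Finset ℕ, U ⊆ Finset.Icc K (K + W2 2 X) → (∀ n ∈ U, ∃ a, FS S n a) →
    U.card ≤ S.card * ⌊8 * Real.log (4 * X)⌋₊ := by
  obtain ⟨X0, hX02, h⟩ := window_coreF
  refine ⟨X0, hX02, ?_⟩
  intro X hX M hM K hXK hK3 S hSc hSM U hU ha
  have hex : ∀ n, ∃ a, n ∈ U → FS S n a := by
    intro n
    by_cases hn : n ∈ U
    · obtain ⟨a, h⟩ := ha n hn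
      exact ⟨a, fun _ => h⟩
    · exact ⟨0, fun h => absurd h hn⟩
  choose a ha' using hex
  have hexi : ∀ p n, ∃ i, (p.Prime → n ∈ U → (i ∈ S ∧
      ∀ e, p ^ e ∣ n ! → p ^ e ∣ (a n + i) * (M !) ^ (S.card - 1))) := by
    intro p n
    by_cases hp : p.Prime
    · by_cases hn : n ∈ U
      · obtain ⟨i, hiS, hi⟩ := FS.padic (ha' n hn) hSM hp
        exact ⟨i, fun _ _ => ⟨hiS, hi⟩⟩
      · exact ⟨0, fun _ h => absurd h hn⟩
    · exact ⟨0, fun h => absurd h hp⟩
  choose i hi using hexi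
  have hmain := Finset.card_le_mul_card_image_of_maps_to (f := i 2) (s := U) (t := S)
    (by intro n hn; exact (hi 2 n Nat.prime_two hn).1) (⌊8 * Real.log (4 * X)⌋₊)
    (by
      intro c _
      apply h X hX M hM K hXK hK3 S hSc hSM (U.filter (fun n => i 2 n = c)) a i
      · exact (Finset.filter_subset _ _).trans hU
      · intro n hn; exact ha' n (Finset.mem_filter.1 hn).1
      · intro p hp n hn; exact hi p n hp (Finset.mem_filter.1 hn).1
      · intro n hn n' hn'
        rw [(Finset.mem_filter.1 hn).2, (Finset.mem_filter.1 hn').2])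
  calc U.card ≤ ⌊8 * Real.log (4 * X)⌋₊ * S.card := hmain
    _ = S.card * ⌊8 * Real.log (4 * X)⌋₊ := mul_comm _ _

end Fac46
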